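import Pool.Agent.H50.Disk.Main

/-!
# A graph on 13 vertices whose disk structure is not connected
-/

set_option autoImplicit false

namespace Pool.Agent.Results.MP_850f75_co.IsolatedDisk

open Pool.Agent.H50.Disk

/-- The explicit graph `G13` and its complement have no star cutset, and the disk `{0,1,2,3,4}` shares at
most one vertex with every other disk, so the disk structure is not connected. -/
theorem result :
    (∀ S : Set (Fin 13), ¬ StarCutset G13 S) ∧ (∀ S : Set (Fin 13), ¬ StarCutset G13ᶜ S) ∧
    IsDisk G13 {0, 1, 2, 3, 4} ∧ IsDisk G13 {0, 5, 8, 10, 11} ∧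
    (∀ D : Set (Fin 13), IsDisk G13 D → D ≠ {0, 1, 2, 3, 4} →
      (D ∩ ({0, 1, 2, 3, 4} : Set (Fin 13))).ncard ≤ 1) ∧
    ¬ (diskStructure G13).Connected :=
  main

end Pool.Agent.Results.MP_850f75_co.IsolatedDisk
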